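import Mathlib

/-!
# Odd numbers which are not gaps from a power of two to the next odd semiprime

For an integer `n ≥ 0` let `a n` be the distance from `2 ^ n` to the smallest odd semiprime which
exceeds `2 ^ n`.  We show that not every odd positive integer is a value of `a`; there is even an
infinite arithmetic progression of odd positive integers none of which is a value of `a`.

Proof.  There are 33 pairwise coprime numbers `p > 1` (they are primes, which is not used) each of
which divides `2 ^ 720 - 1`, and for each of them a residue class of exponents `n` modulo the order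
of `2` modulo `p`, such that every integer `n` is in at least two of these classes (a covering
system of multiplicity two with classes for different primes).  Choose `k` with
`2 ^ n + k ≡ 0 (mod p)` for `n` in the class of `p`, by the Chinese remainder theorem.  Then
`2 ^ n + k` is divisible by two coprime numbers `p, q > 1` for every `n`, and it is larger than
`p q`; so it has at least three prime factors, counted with multiplicity, and it is not a
semiprime.
-/

set_option autoImplicit false

namespace Pool.Agent.Results.MP_c49196_nt.MissingValues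

/-- A semiprime: a product of two primes, not necessarily distinct. -/
def IsSemiprime (s : ℕ) : Prop := ∃ p q : ℕ, p.Prime ∧ q.Prime ∧ s = p * q

/-- The distance from `2 ^ n` to the smallest odd semiprime exceeding it. -/
noncomputable def a (n : ℕ) : ℕ := sInf {s : ℕ | 2 ^ n < s ∧ Odd s ∧ IsSemiprime s} - 2 ^ n

/-- the moduli of the covering system -/
def ps : List ℕ :=
  [3, 7, 5, 31, 17, 73, 11, 13, 151, 257, 19, 41, 241, 331, 37, 109, 61681, 631, 23311, 97,
  673, 61, 1321, 433, 38737, 4278255361, 18837001, 4562284561, 577, 487824887233, 181, 54001,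
  29247661]

/-- the first term of the progression -/
def K : ℕ :=
  341952548175076841135380276159165519624544910984450273732431995491871684666042003008030481264259235059606063

/-- the difference of the progression -/
def M : ℕ :=
  26610725325979414970002808868085860081496755669432857795515246348581692474893236939863651464326495192260889270

theorem chk_dvd : (ps.all fun p => M % p == 0) = true := by decide +kernel

theorem chk_one : (ps.all fun p => (2 ^ 720) % p == 1) = true := by decide +kernel

theorem chk_gt : (ps.all fun p => ps.all fun q => decide (1 < p) && decide (p * q < K)) = true := by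
  decide +kernel

theorem chk_coprime : ps.Pairwise Nat.Coprime := by decide +kernel

theorem chk_cover : ((List.range 720).all fun r =>
    decide (2 ≤ (ps.filter fun p => (2 ^ r + K) % p == 0).length)) = true := by decide +kernel

theorem chk_odd : K % 2 = 1 ∧ M % 2 = 0 ∧ 0 < M := by decide +kernel

theorem pow_mod (p n : ℕ) (h : (2 ^ 720) % p = 1) : 2 ^ n % p = 2 ^ (n % 720) % p := by
  have h1 : 1 % p = 1 := by
    rw [← h, Nat.mod_mod]
  conv_lhs => rw [← Nat.div_add_mod n 720, pow_add, pow_mul]
  rw [Nat.mul_mod, Nat.pow_mod, h, one_pow, h1, one_mul, Nat.mod_mod]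

/-- Every `2 ^ n + k`, `k` in the progression, has two coprime divisors from the list. -/
theorem two_divisors (j n : ℕ) : ∃ p ∈ ps, ∃ q ∈ ps, p.Coprime q ∧
    p ∣ 2 ^ n + (K + M * j) ∧ q ∣ 2 ^ n + (K + M * j) := by
  have hc := List.all_eq_true.1 chk_cover (n % 720) (List.mem_range.2 (Nat.mod_lt _ (by norm_num)))
  rw [decide_eq_true_eq] at hc
  have hpw : (ps.filter fun p => (2 ^ (n % 720) + K) % p == 0).Pairwise Nat.Coprime :=
    chk_coprime.filter _
  have hdiv : ∀ p ∈ (ps.filter fun p => (2 ^ (n % 720) + K) % p == 0),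
      p ∈ ps ∧ p ∣ 2 ^ n + (K + M * j) := by
    intro p hp
    rw [List.mem_filter] at hp
    obtain ⟨hp, h1⟩ := hp
    have h2 : (2 ^ (n % 720) + K) % p = 0 := by simpa using h1
    have h3 : M % p = 0 := by simpa using List.all_eq_true.1 chk_dvd p hp
    have h4 : 2 ^ 720 % p = 1 := eq_of_beq (List.all_eq_true.1 chk_one p hp)
    refine ⟨hp, Nat.dvd_of_mod_eq_zero ?_⟩
    have h5 : 2 ^ n + (K + M * j) = (2 ^ n + K) + M * j := by ring
    rw [h5, Nat.add_mod, Nat.mul_mod, h3, zero_mul, Nat.zero_mod, add_zero, Nat.mod_mod,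
      Nat.add_mod, pow_mod p n h4, ← Nat.add_mod, h2]
  rcases hl : (ps.filter fun p => (2 ^ (n % 720) + K) % p == 0) with _ | ⟨p, _ | ⟨q, t⟩⟩
  · rw [hl] at hc
    simp at hc
  · rw [hl] at hc
    simp at hc
  · rw [hl] at hpw hdiv
    have hp := hdiv p (by simp)
    have hq := hdiv q (by simp)
    have hpq : p.Coprime q := (List.pairwise_cons.1 hpw).1 q (by simp)
    exact ⟨p, hp.1, q, hq.1, hpq, hp.2, hq.2⟩

theorem one_le_Omega {m : ℕ} (h : 1 < m) : 1 ≤ ArithmeticFunction.cardFactors m := by
  rw [ArithmeticFunction.cardFactors_apply, Nat.one_le_iff_ne_zero]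
  intro h0
  have := (Nat.primeFactorsList_eq_nil m).1 (List.length_eq_zero_iff.1 h0)
  omega

/-- The numbers `2 ^ n + k`, `k` in the progression, have at least three prime factors. -/
theorem three_factors (j n : ℕ) :
    3 ≤ ArithmeticFunction.cardFactors (2 ^ n + (K + M * j)) := by
  obtain ⟨p, hp, q, hq, hpq, h1, h2⟩ := two_divisors j n
  have hgt : ∀ p ∈ ps, ∀ q ∈ ps, 1 < p ∧ p * q < K := by
    intro p hp q hq
    have := List.all_eq_true.1 (List.all_eq_true.1 chk_gt p hp) q hq
    simpa using this
  obtain ⟨c, hc⟩ := hpq.mul_dvd_of_dvd_of_dvd h1 h2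
  have hp1 := (hgt p hp q hq).1
  have hq1 := (hgt q hq p hp).1
  have hpK := (hgt p hp q hq).2
  have hc1 : 1 < c := by
    by_contra hle
    push Not at hle
    have h3 : p * q * c ≤ p * q * 1 := Nat.mul_le_mul_left _ hle
    have h4 : K ≤ 2 ^ n + (K + M * j) := by
      have : 0 ≤ 2 ^ n + M * j := Nat.zero_le _
      calc K ≤ K + (2 ^ n + M * j) := Nat.le_add_right _ _
        _ = 2 ^ n + (K + M * j) := by ring
    rw [hc] at h4
    rw [mul_one] at h3
    exact absurd (lt_of_lt_of_le hpK (h4.trans h3)) (lt_irrefl _)
  have e1 := one_le_Omega hp1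
  have e2 := one_le_Omega hq1
  have e3 := one_le_Omega hc1
  rw [hc, ArithmeticFunction.cardFactors_mul (Nat.mul_ne_zero (by omega) (by omega)) (by omega),
    ArithmeticFunction.cardFactors_mul (by omega) (by omega)]
  omega

theorem omega_semiprime {s : ℕ} (h : IsSemiprime s) : ArithmeticFunction.cardFactors s = 2 := by
  obtain ⟨p, q, hp, hq, rfl⟩ := h
  rw [ArithmeticFunction.cardFactors_mul hp.ne_zero hq.ne_zero,
    ArithmeticFunction.cardFactors_apply_prime hp, ArithmeticFunction.cardFactors_apply_prime hq]

theorem nonempty (n : ℕ) : {s : ℕ | 2 ^ n < s ∧ Odd s ∧ IsSemiprime s}.Nonempty := by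
  obtain ⟨p, hp, hpp⟩ := Nat.exists_infinite_primes (2 ^ n + 3)
  refine ⟨3 * p, ?_, ?_, 3, p, Nat.prime_three, hpp, rfl⟩
  · omega
  · have h2 : 0 < 2 ^ n := by positivity
    exact Nat.odd_mul.2 ⟨by decide, hpp.odd_of_ne_two (by omega)⟩

/-- `2 ^ n + a n` is an odd semiprime. -/
theorem semiprime_add (n : ℕ) : IsSemiprime (2 ^ n + a n) := by
  have h := Nat.sInf_mem (nonempty n)
  have h1 : 2 ^ n + a n = sInf {s : ℕ | 2 ^ n < s ∧ Odd s ∧ IsSemiprime s} := by
    have := h.1
    unfold a
    omega
  rw [h1]
  exact h.2.2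

/-- **Not every odd positive integer is the distance from a power of two to the next odd
semiprime**: there is an infinite arithmetic progression of odd positive integers `k` such that
`2 ^ n + k` has at least three prime factors (counted with multiplicity) for every `n ≥ 0`, so that
`a n ≠ k` for every `n ≥ 0`. -/
theorem result :
    (¬ ∀ k : ℕ, 1 ≤ k → Odd k → ∃ n : ℕ, a n = k) ∧
    ∃ K M : ℕ, 0 < M ∧ ∀ j : ℕ, Odd (K + M * j) ∧ ∀ n : ℕ,
      3 ≤ ArithmeticFunction.cardFactors (2 ^ n + (K + M * j)) ∧ a n ≠ K + M * j := by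
  have hne : ∀ j n : ℕ, a n ≠ K + M * j := by
    intro j n h
    have h1 := omega_semiprime (semiprime_add n)
    have h2 := three_factors j n
    rw [h] at h1
    omega
  have hodd : ∀ j : ℕ, Odd (K + M * j) := by
    intro j
    obtain ⟨h1, h2, -⟩ := chk_odd
    rw [Nat.odd_iff, Nat.add_mod, Nat.mul_mod, h2, zero_mul, Nat.zero_mod, add_zero, Nat.mod_mod, h1]
  refine ⟨?_, K, M, chk_odd.2.2, fun j => ⟨hodd j, fun n => ⟨three_factors j n, hne j n⟩⟩⟩
  intro h
  have h0 := hodd 0
  obtain ⟨n, hn⟩ := h (K + M * 0) h0.pos h0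
  exact hne 0 n hn

end Pool.Agent.Results.MP_c49196_nt.MissingValues
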